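import Mathlib

/-!
A sum over the finite sets that carry a rooted tree (job NE-TREE).
-/

set_option autoImplicit false

open Finset

noncomputable section

namespace Pool.Agent.Y21.NE

variable {E : Type*} [DecidableEq E]

/-- Weight of the forests on `S` with roots in `R`, generation by generation. -/
def FA (kap : E → E → ℝ) : ℕ → Finset E → Finset E → ℝ
  | 0, _, S => if S = ∅ then 1 else 0
  | (n + 1), R, S => ∑ C ∈ S.powerset, (∏ y ∈ C, ∑ z ∈ R, kap y z) * FA kap n C (S \ C)

theorem FA_nonneg (kap : E → E → ℝ) (h0 : ∀ y z, 0 ≤ kap y z) (n : ℕ) :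
    ∀ R S : Finset E, 0 ≤ FA kap n R S := by
  induction n with
  | zero => intro R S; simp only [FA]; split_ifs <;> norm_num
  | succ n ih =>
    intro R S
    simp only [FA]
    exact sum_nonneg fun C _ => mul_nonneg
      (prod_nonneg fun y _ => sum_nonneg fun z _ => h0 y z) (ih _ _)

theorem FA_empty (kap : E → E → ℝ) (n : ℕ) : ∀ R : Finset E, FA kap n R ∅ = 1 := by
  induction n with
  | zero => intro R; simp [FA]
  | succ n ih => intro R; simp [FA, ih]

theorem FA_lower (kap : E → E → ℝ) (h0 : ∀ y z, 0 ≤ kap y z) (n : ℕ) :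
    ∀ (R S : Finset E) (par : E → E) (rk : E → ℕ), S.card ≤ n → Disjoint S R →
      (∀ y ∈ S, (par y ∈ S ∧ rk (par y) < rk y) ∨ par y ∈ R) →
      ∏ y ∈ S, kap y (par y) ≤ FA kap n R S := by
  induction n with
  | zero =>
    intro R S par rk hc _ _
    have hS : S = ∅ := card_eq_zero.mp (Nat.le_zero.mp hc)
    subst hS
    simp [FA]
  | succ n ih =>
    intro R S par rk hc hd hp
    rcases S.eq_empty_or_nonempty with hS | hS
    · subst hS
      rw [FA_empty]
      simp
    · set C : Finset E := S.filter (fun y => par y ∈ R) with hC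
      have hCS : C ⊆ S := filter_subset _ _
      have hCne : C.Nonempty := by
        obtain ⟨y, hy, hmin⟩ := S.exists_min_image rk hS
        refine ⟨y, ?_⟩
        rw [hC, mem_filter]
        refine ⟨hy, ?_⟩
        rcases hp y hy with h | h
        · exact absurd h.2 (not_lt.mpr (hmin _ h.1))
        · exact h
      have hcard : (S \ C).card ≤ n := by
        have h1 := card_sdiff_add_card_eq_card hCS
        have h2 := hCne.card_pos
        omega
      have hd' : Disjoint (S \ C) C := sdiff_disjoint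
      have hp' : ∀ y ∈ S \ C, (par y ∈ S \ C ∧ rk (par y) < rk y) ∨ par y ∈ C := by
        intro y hy
        rw [mem_sdiff] at hy
        rcases hp y hy.1 with h | h
        · by_cases hc2 : par y ∈ C
          · exact Or.inr hc2
          · exact Or.inl ⟨mem_sdiff.mpr ⟨h.1, hc2⟩, h.2⟩
        · exact absurd (mem_filter.mpr ⟨hy.1, h⟩) hy.2
      have hih := ih C (S \ C) par rk hcard hd' hp'
      calc ∏ y ∈ S, kap y (par y) = (∏ y ∈ C, kap y (par y)) * ∏ y ∈ S \ C, kap y (par y) := by
            rw [mul_comm]; exact (prod_sdiff hCS).symm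
        _ ≤ (∏ y ∈ C, ∑ z ∈ R, kap y z) * FA kap n C (S \ C) := by
            refine mul_le_mul ?_ hih (prod_nonneg fun y _ => h0 _ _)
              (prod_nonneg fun y _ => sum_nonneg fun z _ => h0 y z)
            refine prod_le_prod (fun y _ => h0 _ _) fun y hy => ?_
            exact single_le_sum (f := fun z => kap y z) (fun z _ => h0 y z)
              (mem_filter.mp hy).2
        _ ≤ FA kap (n + 1) R S := by
            simp only [FA]
            exact single_le_sum
              (f := fun C => (∏ y ∈ C, ∑ z ∈ R, kap y z) * FA kap n C (S \ C))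
              (fun D _ => mul_nonneg
                (prod_nonneg fun y _ => sum_nonneg fun z _ => h0 y z) (FA_nonneg kap h0 n _ _))
              (mem_powerset.mpr hCS)

theorem swap_sum (U : Finset E) (f : Finset E → Finset E → ℝ) :
    ∑ S ∈ U.powerset, ∑ C ∈ S.powerset, f C (S \ C) =
      ∑ C ∈ U.powerset, ∑ S ∈ (U \ C).powerset, f C S := by
  rw [sum_sigma', sum_sigma']
  refine sum_bij' (fun p _ => (⟨p.2, p.1 \ p.2⟩ : (_ : Finset E) × Finset E))
    (fun p _ => (⟨p.1 ∪ p.2, p.1⟩ : (_ : Finset E) × Finset E)) ?_ ?_ ?_ ?_ ?_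
  · rintro ⟨S, C⟩ h
    simp only [mem_sigma, mem_powerset] at h ⊢
    exact ⟨h.2.trans h.1, sdiff_subset_sdiff h.1 (Subset.refl _)⟩
  · rintro ⟨C, S⟩ h
    simp only [mem_sigma, mem_powerset] at h ⊢
    exact ⟨union_subset h.1 (h.2.trans sdiff_subset), subset_union_left⟩
  · rintro ⟨S, C⟩ h
    simp only [mem_sigma, mem_powerset] at h
    simp only [Sigma.mk.injEq, heq_eq_eq, and_true]
    exact union_sdiff_of_subset h.2
  · rintro ⟨C, S⟩ h
    simp only [mem_sigma, mem_powerset] at h
    simp only [Sigma.mk.injEq, heq_eq_eq, true_and]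
    have hd : Disjoint C S := (disjoint_sdiff (s := C) (t := U)).mono_right h.2
    rw [union_sdiff_left]
    exact sdiff_eq_self_of_disjoint hd.symm
  · rintro ⟨S, C⟩ _
    rfl

theorem FA_upper (V : Finset E) (kap : E → E → ℝ) (M Y : ℝ) (h0 : ∀ y z, 0 ≤ kap y z)
    (hM : ∀ z ∈ V, ∑ y ∈ V, kap y z ≤ M) (hY : 0 ≤ Y) (h1 : 3 * M * Y ≤ 1) (n : ℕ) :
    ∀ R U : Finset E, R ⊆ V → U ⊆ V →
      ∑ S ∈ U.powerset, Y ^ S.card * FA kap n R S ≤ Real.exp R.card := by
  induction n with
  | zero =>
    intro R U _ _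
    have : ∑ S ∈ U.powerset, Y ^ S.card * FA kap 0 R S = 1 := by
      rw [sum_eq_single_of_mem (∅ : Finset E) (empty_mem_powerset U)]
      · simp [FA]
      · intro S _ hS
        simp [FA, hS]
    rw [this]
    exact Real.one_le_exp (Nat.cast_nonneg _)
  | succ n ih =>
    intro R U hR hU
    have he : Real.exp 1 ≤ 3 := Real.exp_one_lt_three.le
    have hk : ∀ y, 0 ≤ ∑ z ∈ R, kap y z := fun y => sum_nonneg fun z _ => h0 y z
    calc ∑ S ∈ U.powerset, Y ^ S.card * FA kap (n + 1) R S
        = ∑ S ∈ U.powerset, ∑ C ∈ S.powerset,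
            (∏ y ∈ C, (Y * ∑ z ∈ R, kap y z)) * (Y ^ (S \ C).card * FA kap n C (S \ C)) := by
          refine sum_congr rfl fun S _ => ?_
          simp only [FA]
          rw [mul_sum]
          refine sum_congr rfl fun C hC => ?_
          rw [prod_mul_distrib, prod_const,
            ← card_sdiff_add_card_eq_card (mem_powerset.mp hC), pow_add]
          ring
      _ = ∑ C ∈ U.powerset, ∑ S ∈ (U \ C).powerset,
            (∏ y ∈ C, (Y * ∑ z ∈ R, kap y z)) * (Y ^ S.card * FA kap n C S) :=
          swap_sum U (fun C S => (∏ y ∈ C, (Y * ∑ z ∈ R, kap y z)) *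
            (Y ^ S.card * FA kap n C S))
      _ ≤ ∑ C ∈ U.powerset, ∏ y ∈ C, (3 * Y * ∑ z ∈ R, kap y z) := by
          refine sum_le_sum fun C hC => ?_
          rw [← mul_sum]
          have hCU : C ⊆ U := mem_powerset.mp hC
          have h2 := ih C (U \ C) (hCU.trans hU) (sdiff_subset.trans hU)
          have h3 : Real.exp (C.card : ℝ) ≤ 3 ^ C.card := by
            rw [← Real.exp_one_pow]
            exact pow_le_pow_left₀ (Real.exp_pos 1).le he _
          have h4 : 0 ≤ ∏ y ∈ C, (Y * ∑ z ∈ R, kap y z) :=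
            prod_nonneg fun y _ => mul_nonneg hY (hk y)
          calc (∏ y ∈ C, (Y * ∑ z ∈ R, kap y z)) *
                ∑ S ∈ (U \ C).powerset, Y ^ S.card * FA kap n C S
              ≤ (∏ y ∈ C, (Y * ∑ z ∈ R, kap y z)) * 3 ^ C.card :=
                mul_le_mul_of_nonneg_left (h2.trans h3) h4
            _ = ∏ y ∈ C, (3 * Y * ∑ z ∈ R, kap y z) := by
                rw [← prod_const, ← prod_mul_distrib]
                exact prod_congr rfl fun y _ => by ring
      _ = ∏ y ∈ U, (1 + 3 * Y * ∑ z ∈ R, kap y z) := by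
          rw [prod_one_add]
      _ ≤ ∏ y ∈ U, Real.exp (3 * Y * ∑ z ∈ R, kap y z) := by
          refine prod_le_prod (fun y _ => ?_) fun y _ => ?_
          · have := mul_nonneg (mul_nonneg (by norm_num : (0 : ℝ) ≤ 3) hY) (hk y)
            linarith
          · rw [add_comm]; exact Real.add_one_le_exp _
      _ = Real.exp (∑ y ∈ U, 3 * Y * ∑ z ∈ R, kap y z) := (Real.exp_sum _ _).symm
      _ ≤ Real.exp R.card := by
          refine Real.exp_le_exp.mpr ?_
          calc ∑ y ∈ U, 3 * Y * ∑ z ∈ R, kap y z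
              ≤ ∑ y ∈ V, 3 * Y * ∑ z ∈ R, kap y z :=
                sum_le_sum_of_subset_of_nonneg hU fun y _ _ =>
                  mul_nonneg (mul_nonneg (by norm_num) hY) (hk y)
            _ = ∑ z ∈ R, 3 * Y * ∑ y ∈ V, kap y z := by
                rw [← mul_sum, ← mul_sum, sum_comm]
            _ ≤ ∑ z ∈ R, (1 : ℝ) := by
                refine sum_le_sum fun z hz => ?_
                have h5 := mul_le_mul_of_nonneg_left (hM z (hR hz))
                  (mul_nonneg (by norm_num : (0 : ℝ) ≤ 3) hY)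
                linarith
            _ = R.card := by simp

/-- **Sum over the sets carrying a rooted tree.** -/
theorem tree {E : Type*} [DecidableEq E] (V : Finset E) (kap : E → E → ℝ)
    (w : Finset E → E → ℝ) (M Y : ℝ) (h0 : ∀ y z, 0 ≤ kap y z)
    (hM : ∀ z ∈ V, ∑ y ∈ V, kap y z ≤ M) (hY : 0 ≤ Y) (h1 : 3 * M * Y ≤ 1)
    (hw : ∀ S ⊆ V, ∀ x ∈ S, ∃ (par : E → E) (rk : E → ℕ),
      (∀ y ∈ S, y ≠ x → par y ∈ S ∧ rk (par y) < rk y) ∧
      w S x ≤ ∏ y ∈ S.erase x, kap y (par y)) :
    ∀ x ∈ V, ∑ S ∈ V.powerset.filter (fun S => x ∈ S), Y ^ S.card * w S x ≤ 3 * Y := by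
  intro x hx
  have hstep : ∀ S ∈ V.powerset.filter (fun S => x ∈ S),
      Y ^ S.card * w S x ≤ Y * (Y ^ (S.erase x).card * FA kap V.card {x} (S.erase x)) := by
    intro S hS
    rw [mem_filter, mem_powerset] at hS
    obtain ⟨par, rk, hp, hle⟩ := hw S hS.1 x hS.2
    have hlow := FA_lower kap h0 V.card {x} (S.erase x) par rk
      ((card_erase_le).trans (card_le_card hS.1))
      (disjoint_singleton_right.mpr (notMem_erase x S)) (by
        intro y hy
        rw [mem_erase] at hy
        obtain ⟨h2, h3⟩ := hp y hy.2 hy.1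
        by_cases h4 : par y = x
        · exact Or.inr (mem_singleton.mpr h4)
        · exact Or.inl ⟨mem_erase.mpr ⟨h4, h2⟩, h3⟩)
    calc Y ^ S.card * w S x ≤ Y ^ S.card * FA kap V.card {x} (S.erase x) :=
          mul_le_mul_of_nonneg_left (hle.trans hlow) (pow_nonneg hY _)
      _ = Y * (Y ^ (S.erase x).card * FA kap V.card {x} (S.erase x)) := by
          rw [← card_erase_add_one hS.2, pow_succ]
          ring
  calc ∑ S ∈ V.powerset.filter (fun S => x ∈ S), Y ^ S.card * w S x
      ≤ ∑ S ∈ V.powerset.filter (fun S => x ∈ S),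
          Y * (Y ^ (S.erase x).card * FA kap V.card {x} (S.erase x)) := sum_le_sum hstep
    _ = ∑ S ∈ (V.erase x).powerset, Y * (Y ^ S.card * FA kap V.card {x} S) := by
        refine sum_bij' (fun S _ => S.erase x) (fun S _ => insert x S) ?_ ?_ ?_ ?_ ?_
        · intro S hS
          rw [mem_filter, mem_powerset] at hS
          exact mem_powerset.mpr (erase_subset_erase x hS.1)
        · intro S hS
          rw [mem_powerset] at hS
          rw [mem_filter, mem_powerset]
          exact ⟨insert_subset hx (hS.trans (erase_subset _ _)), mem_insert_self _ _⟩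
        · intro S hS
          exact insert_erase (mem_filter.mp hS).2
        · intro S hS
          refine erase_insert ?_
          intro h
          exact (notMem_erase x V) (mem_powerset.mp hS h)
        · intro S _
          rfl
    _ = Y * ∑ S ∈ (V.erase x).powerset, Y ^ S.card * FA kap V.card {x} S := by rw [mul_sum]
    _ ≤ Y * 3 := by
        refine mul_le_mul_of_nonneg_left ?_ hY
        have h6 := FA_upper V kap M Y h0 hM hY h1 V.card {x} (V.erase x)
          (singleton_subset_iff.mpr hx) (erase_subset _ _)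
        rw [card_singleton, Nat.cast_one] at h6
        exact h6.trans Real.exp_one_lt_three.le
    _ = 3 * Y := mul_comm _ _

end Pool.Agent.Y21.NE
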